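import Pool.Agent.H3NY.E.Four

namespace Pool.Agent.H356R3.NS
end Pool.Agent.H356R3.NS
namespace Pool.Agent.H356R3.NS.H3
end Pool.Agent.H356R3.NS.H3
namespace Pool.Agent.H356R3.NS.X
end Pool.Agent.H356R3.NS.X
namespace Pool.Agent.H3NS
end Pool.Agent.H3NS
namespace H459R3.NS
end H459R3.NS

/-!
Time derivatives of the energy and of the enstrophy of a smooth periodic solution.
-/

open MeasureTheory Set Filter Topology
open scoped ContDiff

namespace H459R3.NS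

section general

variable {T : ℝ}

theorem uniqueDiff (T : ℝ) : UniqueDiffOn ℝ (Ico 0 T ×ˢ (univ : Set V)) := by
  rcases le_or_gt T 0 with h | h
  · rw [Ico_eq_empty (by linarith)]; simp [UniqueDiffOn]
  · exact (uniqueDiffOn_Ico 0 T).prod uniqueDiffOn_univ

theorem continuousOn_int {F : ℝ → V → ℝ}
    (hF : ContinuousOn (fun z : ℝ × V => F z.1 z.2) (Ico 0 T ×ˢ univ)) :
    ContinuousOn (fun s => ∫ x in cube, F s x) (Ico 0 T) := by
  intro t ht
  obtain ⟨b, hb1, hb2⟩ := exists_between ht.2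
  have hK : IsCompact (Icc 0 b ×ˢ cube) := isCompact_Icc.prod isCompact_Icc
  have hsub : Icc 0 b ×ˢ cube ⊆ Ico 0 T ×ˢ (univ : Set V) :=
    prod_mono (fun s hs => ⟨hs.1, hs.2.trans_lt hb2⟩) (subset_univ _)
  obtain ⟨C, hC⟩ := hK.exists_bound_of_continuousOn (hF.mono hsub)
  have hev : ∀ᶠ s in 𝓝[Ico 0 T] t, s ∈ Icc 0 b := by
    have h1 : ∀ᶠ s in 𝓝[Ico 0 T] t, s < b := nhdsWithin_le_nhds (Iio_mem_nhds hb1)
    filter_upwards [h1, self_mem_nhdsWithin] with s hs1 hs2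
    exact ⟨hs2.1, hs1.le⟩
  have hmeas : MeasurableSet cube := measurableSet_Icc
  have := cube_finite
  refine continuousWithinAt_of_dominated (bound := fun _ => C) ?_ ?_ ?_ ?_
  · filter_upwards [hev] with s hs
    have hc : Continuous (fun x => F s x) := by
      have := hF.comp_continuous (f := fun x : V => ((s, x) : ℝ × V)) (by fun_prop)
        (fun x => ⟨⟨hs.1, hs.2.trans_lt hb2⟩, mem_univ _⟩)
      exact this
    exact hc.aestronglyMeasurable
  · filter_upwards [hev] with s hs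
    refine (ae_restrict_iff' hmeas).2 (Filter.Eventually.of_forall fun x hx => ?_)
    exact hC (s, x) ⟨hs, hx⟩
  · exact integrable_const _
  · refine Filter.Eventually.of_forall fun x => ?_
    have h1 : ContinuousWithinAt (fun z : ℝ × V => F z.1 z.2)
        (Ico 0 T ×ˢ univ) (t, x) := hF (t, x) ⟨ht, mem_univ _⟩
    exact h1.comp (t := Ico 0 T ×ˢ univ) (f := fun s : ℝ => ((s, x) : ℝ × V))
      (by fun_prop) (fun s hs => ⟨hs, mem_univ _⟩)

theorem hasDerivAt_slice {F : ℝ → V → ℝ}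
    (hF : ContDiffOn ℝ 1 (fun z : ℝ × V => F z.1 z.2) (Ioo 0 T ×ˢ univ)) {t : ℝ}
    (ht : t ∈ Ioo 0 T) (x : V) :
    HasDerivAt (fun s => F s x) (fderiv ℝ (fun z : ℝ × V => F z.1 z.2) (t, x) (1, 0)) t := by
  have hmem : Ioo 0 T ×ˢ (univ : Set V) ∈ 𝓝 (t, x) :=
    prod_mem_nhds (Ioo_mem_nhds ht.1 ht.2) Filter.univ_mem
  have h1 : DifferentiableAt ℝ (fun z : ℝ × V => F z.1 z.2) (t, x) :=
    (hF.contDiffAt hmem).differentiableAt one_ne_zero
  have h2 : HasDerivAt (fun s : ℝ => ((s, x) : ℝ × V)) (1, 0) t :=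
    (hasDerivAt_id t).prodMk (hasDerivAt_const t x)
  exact h1.hasFDerivAt.comp_hasDerivAt t h2

theorem hasDerivAt_int {F : ℝ → V → ℝ}
    (hF : ContDiffOn ℝ 1 (fun z : ℝ × V => F z.1 z.2) (Ioo 0 T ×ˢ univ)) {t : ℝ}
    (ht : t ∈ Ioo 0 T) :
    HasDerivAt (fun s => ∫ x in cube, F s x) (∫ x in cube, deriv (fun s => F s x) t) t := by
  obtain ⟨a, ha1, ha2⟩ := exists_between ht.1
  obtain ⟨b, hb1, hb2⟩ := exists_between ht.2
  have hO : IsOpen (Ioo 0 T ×ˢ (univ : Set V)) := isOpen_Ioo.prod isOpen_univ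
  have hd : ContinuousOn (fun z : ℝ × V =>
      fderiv ℝ (fun z : ℝ × V => F z.1 z.2) z (1, 0)) (Ioo 0 T ×ˢ univ) :=
    (hF.continuousOn_fderiv_of_isOpen hO le_rfl).clm_apply continuousOn_const
  have hK : IsCompact (Icc a b ×ˢ cube) := isCompact_Icc.prod isCompact_Icc
  have hsub : Icc a b ×ˢ cube ⊆ Ioo 0 T ×ˢ (univ : Set V) :=
    prod_mono (fun s hs => ⟨ha1.trans_le hs.1, hs.2.trans_lt hb2⟩) (subset_univ _)
  obtain ⟨C, hC⟩ := hK.exists_bound_of_continuousOn (hd.mono hsub)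
  have hslice : ∀ s ∈ Ioo 0 T, Continuous (fun x => F s x) := fun s hs => by
    have := hF.continuousOn.comp_continuous (f := fun x : V => ((s, x) : ℝ × V)) (by fun_prop)
      (fun x => ⟨hs, mem_univ _⟩)
    exact this
  have hnh : Icc a b ∈ 𝓝 t := Icc_mem_nhds ha2 hb1
  have hmeas : MeasurableSet cube := measurableSet_Icc
  have := cube_finite
  have key := (hasDerivAt_integral_of_dominated_loc_of_deriv_le (s := Icc a b)
    (F := fun s x => F s x) (F' := fun s x =>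
      fderiv ℝ (fun z : ℝ × V => F z.1 z.2) (s, x) (1, 0))
    (bound := fun _ => C) (μ := volume.restrict cube) hnh ?_ ?_ ?_ ?_ ?_ ?_).2
  · have e : (∫ x in cube, deriv (fun s => F s x) t)
        = ∫ x in cube, fderiv ℝ (fun z : ℝ × V => F z.1 z.2) (t, x) (1, 0) := by
      congr 1
      funext x
      exact (hasDerivAt_slice hF ht x).deriv
    rw [e]
    exact key
  · filter_upwards [Ioo_mem_nhds ht.1 ht.2] with s hs
    exact (hslice s hs).aestronglyMeasurable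
  · exact integrableOn_cube (hslice t ht)
  · have : Continuous (fun x => fderiv ℝ (fun z : ℝ × V => F z.1 z.2) (t, x) (1, 0)) := by
      have h := hd.comp_continuous (f := fun x : V => ((t, x) : ℝ × V)) (by fun_prop)
        (fun x => ⟨ht, mem_univ _⟩)
      exact h
    exact this.aestronglyMeasurable
  · refine (ae_restrict_iff' hmeas).2 (Filter.Eventually.of_forall fun x hx s hs => ?_)
    exact hC (s, x) ⟨hs, hx⟩
  · exact integrable_const _
  · refine Filter.Eventually.of_forall fun x s hs => ?_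
    exact hasDerivAt_slice hF ⟨ha1.trans_le hs.1, hs.2.trans_lt hb2⟩ x

/-- The spatial derivative of a function which is smooth in space-time. -/
theorem pd_slice {f : ℝ → V → ℝ}
    (hf : ContDiffOn ℝ ∞ (fun z : ℝ × V => f z.1 z.2) (Ico 0 T ×ˢ univ)) {t : ℝ}
    (ht : t ∈ Ico 0 T) (j : Fin 3) (x : V) :
    pd j (f t) x = fderivWithin ℝ (fun z : ℝ × V => f z.1 z.2) (Ico 0 T ×ˢ univ) (t, x)
      (0, Pi.single j 1) := by
  have h1 : HasFDerivWithinAt (fun z : ℝ × V => f z.1 z.2)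
      (fderivWithin ℝ (fun z : ℝ × V => f z.1 z.2) (Ico 0 T ×ˢ univ) (t, x))
      (Ico 0 T ×ˢ univ) (t, x) :=
    ((hf.differentiableOn (by norm_cast)) (t, x) ⟨ht, mem_univ _⟩).hasFDerivWithinAt
  have h2 : HasFDerivAt (fun y : V => ((t, y) : ℝ × V)) (ContinuousLinearMap.inr ℝ ℝ V) x :=
    hasFDerivAt_prodMk_right t x
  have h3 : HasFDerivWithinAt (fun y : V => f t y)
      ((fderivWithin ℝ (fun z : ℝ × V => f z.1 z.2) (Ico 0 T ×ˢ univ) (t, x)).comp
        (ContinuousLinearMap.inr ℝ ℝ V)) univ x :=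
    HasFDerivWithinAt.comp (g := fun z : ℝ × V => f z.1 z.2) (t := Ico 0 T ×ˢ univ) x h1
      h2.hasFDerivWithinAt (fun y _ => ⟨ht, mem_univ _⟩)
  rw [hasFDerivWithinAt_univ] at h3
  unfold pd
  have h4 : fderiv ℝ (f t) x = _ := h3.fderiv
  rw [h4]
  simp

theorem contDiffOn_pd {f : ℝ → V → ℝ}
    (hf : ContDiffOn ℝ ∞ (fun z : ℝ × V => f z.1 z.2) (Ico 0 T ×ˢ univ)) (j : Fin 3) :
    ContDiffOn ℝ ∞ (fun z : ℝ × V => pd j (f z.1) z.2) (Ico 0 T ×ˢ univ) := by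
  have h1 : ContDiffOn ℝ ∞ (fderivWithin ℝ (fun z : ℝ × V => f z.1 z.2) (Ico 0 T ×ˢ univ))
      (Ico 0 T ×ˢ univ) := hf.fderivWithin (uniqueDiff T) (by norm_cast)
  have h2 : ContDiffOn ℝ ∞ (fun z : ℝ × V => fderivWithin ℝ (fun z : ℝ × V => f z.1 z.2)
      (Ico 0 T ×ˢ univ) z (0, Pi.single j 1)) (Ico 0 T ×ˢ univ) := h1.clm_apply contDiffOn_const
  refine h2.congr fun z hz => ?_
  exact pd_slice hf hz.1 j z.2

theorem contDiff_slice {f : ℝ → V → ℝ}
    (hf : ContDiffOn ℝ ∞ (fun z : ℝ × V => f z.1 z.2) (Ico 0 T ×ˢ univ)) {t : ℝ}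
    (ht : t ∈ Ico 0 T) : ContDiff ℝ ∞ (f t) := by
  rw [← contDiffOn_univ]
  exact hf.comp (contDiff_const.prodMk contDiff_id).contDiffOn (fun x _ => ⟨ht, mem_univ _⟩)

/-- The time derivative -/
noncomputable def dt (f : ℝ → V → ℝ) (t : ℝ) (x : V) : ℝ := deriv (fun s => f s x) t

theorem mono_Ioo {f : ℝ → V → ℝ} {n : WithTop ℕ∞}
    (hf : ContDiffOn ℝ ∞ (fun z : ℝ × V => f z.1 z.2) (Ico 0 T ×ˢ univ)) (hn : n ≤ ∞) :
    ContDiffOn ℝ n (fun z : ℝ × V => f z.1 z.2) (Ioo 0 T ×ˢ univ) :=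
  (hf.of_le hn).mono (prod_mono Ioo_subset_Ico_self subset_rfl)

theorem dt_eq {f : ℝ → V → ℝ}
    (hf : ContDiffOn ℝ ∞ (fun z : ℝ × V => f z.1 z.2) (Ico 0 T ×ˢ univ)) {t : ℝ}
    (ht : t ∈ Ioo 0 T) (x : V) :
    dt f t x = fderiv ℝ (fun z : ℝ × V => f z.1 z.2) (t, x) (1, 0) :=
  (hasDerivAt_slice (mono_Ioo hf (by norm_cast)) ht x).deriv

end general

end H459R3.NS
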