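import Pool.Agent.H3NY.E.Phys

namespace Pool.Agent.H356R3.NS
end Pool.Agent.H356R3.NS
namespace Pool.Agent.H356R3.NS.H3
end Pool.Agent.H356R3.NS.H3
namespace Pool.Agent.H356R3.NS.X
end Pool.Agent.H356R3.NS.X
namespace Pool.Agent.H3NS
end Pool.Agent.H3NS
namespace H459R3.NS
end H459R3.NS

/-!
Integration by parts identities for a divergence-free field at a fixed time.
-/

open MeasureTheory Set Filter Topology
open scoped ContDiff

namespace H459R3.NS

theorem SP.cont {f : V → ℝ} (hf : SP f) : Continuous f := hf.smooth.continuous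

theorem SP.diff {f : V → ℝ} (hf : SP f) (x : V) : DifferentiableAt ℝ f x :=
  (hf.smooth.differentiable (by norm_cast)) x

theorem SP.int {f : V → ℝ} (hf : SP f) : IntegrableOn f cube := integrableOn_cube hf.cont

theorem pd_mul {f g : V → ℝ} (hf : SP f) (hg : SP g) (j : Fin 3) (x : V) :
    pd j (fun y => f y * g y) x = f x * pd j g x + pd j f x * g x := by
  unfold pd
  have h : HasFDerivAt (fun y => f y * g y) _ x := (hf.diff x).hasFDerivAt.mul (hg.diff x).hasFDerivAt
  rw [h.fderiv]
  simp only [ContinuousLinearMap.add_apply, smul_apply, smul_eq_mul]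
  ring

/-- integration by parts -/
theorem ibp {f g : V → ℝ} (hf : SP f) (hg : SP g) (j : Fin 3) :
    ∫ x in cube, pd j f x * g x = -∫ x in cube, f x * pd j g x := by
  have h := integral_pd ((hf.mul hg).smooth.of_le (by norm_cast)) (hf.mul hg).per j
  simp_rw [pd_mul hf hg] at h
  rw [integral_add (hf.mul (hg.pd j)).int ((hf.pd j).mul hg).int] at h
  linarith

section field

variable {v : Fin 3 → V → ℝ} (hv : ∀ i, SP (v i)) (hdiv : ∀ x, ∑ i, NS.pd i (v i) x = 0)

include hv hdiv in
theorem transport_zero {g : V → ℝ} (hg : SP g) :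
    ∑ j, ∫ x in cube, v j x * (g x * pd j g x) = 0 := by
  have h1 : ∀ j, ∫ x in cube, v j x * (g x * pd j g x)
      = -(1 / 2) * ∫ x in cube, pd j (v j) x * (g x * g x) := by
    intro j
    rw [ibp (hv j) (hg.mul hg) j]
    have : (∫ x in cube, v j x * pd j (fun y => g y * g y) x)
        = 2 * ∫ x in cube, v j x * (g x * pd j g x) := by
      rw [← integral_const_mul]
      congr 1
      funext x
      rw [pd_mul hg hg]
      ring
    rw [this]
    ring
  simp_rw [h1]
  rw [← Finset.mul_sum, ← integral_finsetSum _ fun j _ => (((hv j).pd j).mul (hg.mul hg)).int]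
  have : ∀ x, ∑ j, pd j (v j) x * (g x * g x) = 0 := by
    intro x
    rw [← Finset.sum_mul, hdiv, zero_mul]
  simp_rw [this]
  simp

theorem SP.lap {f : V → ℝ} (hf : SP f) : SP (NS.lap f) := SP.sum fun j _ => (hf.pd j).pd j

theorem int_lap_mul {f g : V → ℝ} (hf : SP f) (hg : SP g) :
    ∫ x in cube, lap f x * g x = -∑ j, ∫ x in cube, pd j f x * pd j g x := by
  unfold lap
  simp_rw [Finset.sum_mul]
  rw [integral_finsetSum _ fun j _ => (((hf.pd j).pd j).mul hg).int, ← Finset.sum_neg_distrib]
  exact Finset.sum_congr rfl fun j _ => ibp (hf.pd j) hg j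

include hv hdiv in
theorem int_press {q : V → ℝ} (hq : SP q) : ∑ i, ∫ x in cube, v i x * pd i q x = 0 := by
  have h1 : ∀ i, ∫ x in cube, v i x * pd i q x = -∫ x in cube, pd i (v i) x * q x := by
    intro i
    rw [ibp (hv i) hq i]; ring
  simp_rw [h1]
  rw [Finset.sum_neg_distrib, ← integral_finsetSum _ fun i _ => (((hv i).pd i).mul hq).int]
  simp_rw [← Finset.sum_mul, hdiv]
  simp

/-- The convection term. -/
noncomputable def conv (v : Fin 3 → V → ℝ) (i : Fin 3) (x : V) : ℝ := ∑ j, v j x * pd j (v i) x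

include hv in
theorem sp_conv (i : Fin 3) : SP (conv v i) := SP.sum fun j _ => (hv j).mul ((hv i).pd j)

include hv hdiv in
theorem int_conv : ∑ i, ∫ x in cube, v i x * conv v i x = 0 := by
  refine Finset.sum_eq_zero fun i _ => ?_
  have h := transport_zero hv hdiv (hv i)
  rw [← h, ← integral_finsetSum _ fun j _ => ((hv j).mul ((hv i).mul ((hv i).pd j))).int]
  congr 1
  funext x
  unfold conv
  rw [Finset.mul_sum]
  exact Finset.sum_congr rfl fun j _ => by ring

end field

end H459R3.NS
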