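import Pool.Agent.H3NY.E.Phys2
import Pool.Agent.H3NY.E.Sol

namespace Pool.Agent.H356R3.NS
end Pool.Agent.H356R3.NS
namespace Pool.Agent.H356R3.NS.H3
end Pool.Agent.H356R3.NS.H3
namespace Pool.Agent.H356R3.NS.X
end Pool.Agent.H356R3.NS.X
namespace Pool.Agent.H3NS
end Pool.Agent.H3NS
namespace H459R3.NS
end H459R3.NS

/-!
The enstrophy bound.
-/

open MeasureTheory Set Filter Topology
open scoped ContDiff

namespace H459R3.NS

section fixed

variable {v : Fin 3 → V → ℝ} (hv : ∀ i, SP (v i)) (hdiv : ∀ x, ∑ i, pd i (v i) x = 0)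

theorem fr_sum {ι : Type*} {s : Finset ι} {f : ι → V → ℝ} (hf : ∀ i ∈ s, SP (f i)) (k : K3) :
    fr (fun x => ∑ i ∈ s, f i x) k = ∑ i ∈ s, fr (f i) k := by
  unfold fr fc
  have hint : ∀ i ∈ s, IntegrableOn (fun x => ee (-k) x * (f i x : ℂ)) cube := fun i hi =>
    integrableOn_cube ((ee_continuous _).mul (contDiff_ofReal (hf i hi).smooth).continuous)
  have h := integral_finsetSum s hint
  rw [← h]
  congr 1
  funext x
  push_cast
  rw [Finset.mul_sum]

include hv hdiv in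
theorem fr_div (k : K3) : ∑ i, (k i : ℂ) * fr (v i) k = 0 := by
  have h1 : fr (fun x => ∑ i, pd i (v i) x) k = 0 := by
    have : (fun x => ∑ i, pd i (v i) x) = fun _ => (0 : ℝ) := funext hdiv
    rw [this]
    simp [fr, fc]
  rw [fr_sum (fun i _ => (hv i).pd i)] at h1
  simp_rw [fr_pd (hv _), D] at h1
  have h2 : (2 * Real.pi * Complex.I) * ∑ i, (k i : ℂ) * fr (v i) k = 0 := by
    rw [← h1, Finset.mul_sum]
    exact Finset.sum_congr rfl fun i _ => by ring
  have h3 : (2 * (Real.pi : ℂ) * Complex.I) ≠ 0 := by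
    have : (Real.pi : ℂ) ≠ 0 := by exact_mod_cast Real.pi_ne_zero
    simp [this, Complex.I_ne_zero]
  exact (mul_eq_zero.1 h2).resolve_left h3

include hv in
theorem sum_grad : ∑ i, ∑ m, n2 (D m (fr (v i))) ^ 2
    = ∑ i, ∑ j, ∫ x in cube, pd j (v i) x ^ 2 := by
  refine Finset.sum_congr rfl fun i _ => Finset.sum_congr rfl fun j _ => ?_
  rw [← fr_pd (hv i), n2_fr ((hv i).pd j)]

end fixed

section evolution

variable {ν T : ℝ} {u : ℝ → V → V} {p : ℝ → V → ℝ}

theorem energy_nonneg (v : V → V) : 0 ≤ energy v :=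
  Finset.sum_nonneg fun _ _ => integral_nonneg fun _ => sq_nonneg _

theorem IsSol.int_enstrophy (h : IsSol ν T u p) (hν : 0 < ν) {t : ℝ} (ht : t ∈ Ico 0 T) :
    ∫ s in (0 : ℝ)..t, enstrophy (u s) ≤ energy (u 0) / (2 * ν) := by
  have hc : ContinuousOn (fun s => enstrophy (u s)) (Icc 0 t) :=
    h.enstrophy_continuousOn.mono fun s hs => ⟨hs.1, hs.2.trans_lt ht.2⟩
  have hE : ContinuousOn (fun s => energy (u s)) (Icc 0 t) :=
    h.energy_continuousOn.mono fun s hs => ⟨hs.1, hs.2.trans_lt ht.2⟩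
  have h1 := intervalIntegral.integral_eq_sub_of_hasDerivAt_of_le ht.1 hE
    (fun s hs => h.energy_hasDerivAt ⟨hs.1, hs.2.trans ht.2⟩)
    ((hc.const_smul (2 * ν)).neg.intervalIntegrable_of_Icc ht.1)
  rw [intervalIntegral.integral_neg, intervalIntegral.integral_const_mul] at h1
  have h2 := energy_nonneg (u t)
  rw [le_div_iff₀ (by positivity)]
  linarith

end evolution

end H459R3.NS
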