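import Pool.Agent.H3NY.E.Four

namespace Pool.Agent.H356R3.NS
end Pool.Agent.H356R3.NS
namespace Pool.Agent.H356R3.NS.H3
end Pool.Agent.H356R3.NS.H3
namespace Pool.Agent.H356R3.NS.X
end Pool.Agent.H356R3.NS.X
namespace Pool.Agent.H3NS
end Pool.Agent.H3NS
namespace H459R3.NS
end H459R3.NS

/-!
Smooth periodic functions and their Fourier coefficients.
-/

open MeasureTheory Set Filter Topology
open scoped ContDiff

namespace H459R3.NS

theorem Per.fderiv {E : Type*} [NormedAddCommGroup E] [NormedSpace ℝ E] {f : V → E}
    (hp : Per f) : Per (fderiv ℝ f) := by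
  intro i x
  have h1 : f = fun y => f (y + Pi.single i 1) := by
    ext y; rw [hp]
  conv_rhs => rw [h1]
  rw [fderiv_comp_add_right]

theorem Per.pd {E : Type*} [NormedAddCommGroup E] [NormedSpace ℝ E] {f : V → E}
    (hp : Per f) (j : Fin 3) : Per (pd j f) := by
  intro i x
  unfold NS.pd
  rw [hp.fderiv i x]

theorem SP.pd {f : V → ℝ} (hf : SP f) (j : Fin 3) : SP (pd j f) where
  smooth := (hf.smooth.fderiv_right (m := ∞) (by norm_cast)).clm_apply contDiff_const
  per := hf.per.pd j

theorem SP.mul {f g : V → ℝ} (hf : SP f) (hg : SP g) : SP (fun x => f x * g x) where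
  smooth := hf.smooth.mul hg.smooth
  per := fun i x => by simp only [hf.per i x, hg.per i x]

theorem SP.add {f g : V → ℝ} (hf : SP f) (hg : SP g) : SP (fun x => f x + g x) where
  smooth := hf.smooth.add hg.smooth
  per := fun i x => by simp only [hf.per i x, hg.per i x]

theorem SP.sum {ι : Type*} {s : Finset ι} {f : ι → V → ℝ} (hf : ∀ i ∈ s, SP (f i)) :
    SP (fun x => ∑ i ∈ s, f i x) where
  smooth := ContDiff.sum fun i hi => (hf i hi).smooth
  per := fun i x => Finset.sum_congr rfl fun j hj => (hf j hj).per i x

/-- The integral of a partial derivative of a periodic function vanishes. -/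
theorem integral_pd {E : Type*} [NormedAddCommGroup E] [NormedSpace ℝ E] [CompleteSpace E]
    {f : V → E} (hf : ContDiff ℝ 1 f) (hp : Per f) (j : Fin 3) :
    ∫ x in cube, pd j f x = 0 := by
  have hd : Continuous (fun x => fderiv ℝ f x (Pi.single j 1)) :=
    (hf.continuous_fderiv one_ne_zero).clm_apply continuous_const
  have e0 : ∀ x, ∑ i, (if i = j then fderiv ℝ f x else 0) (Pi.single i (1 : ℝ))
      = fderiv ℝ f x (Pi.single j 1) := by
    intro x
    rw [Finset.sum_eq_single j]
    · rw [if_pos rfl]
    · intro i _ hij
      rw [if_neg hij]; rfl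
    · intro h; exact absurd (Finset.mem_univ j) h
  have h := integral_divergence_of_hasFDerivAt_off_countable' (n := 2) (0 : V) 1 (by
      intro i; simp) (fun i x => if i = j then f x else 0)
    (fun i x => if i = j then fderiv ℝ f x else 0) ∅ countable_empty
    (fun i => by
      by_cases hi : i = j
      · simp only [hi, if_true]; exact hf.continuous.continuousOn
      · simp only [hi, if_false]; exact continuousOn_const)
    (fun x _ i => by
      by_cases hi : i = j
      · simp only [hi, if_true]
        exact (hf.differentiable one_ne_zero x).hasFDerivAt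
      · simp only [hi, if_false]; exact hasFDerivAt_const _ _)
    (by
      simp_rw [e0]
      exact integrableOn_cube hd)
  simp_rw [e0] at h
  unfold pd cube
  rw [h]
  refine Finset.sum_eq_zero fun i _ => ?_
  by_cases hi : i = j
  · subst hi
    simp only [if_true]
    rw [sub_eq_zero]
    congr 1
    funext x
    rw [← hp i (i.insertNth ((0 : V) i) x)]
    congr 1
    funext l
    rcases Fin.eq_self_or_eq_succAbove i l with rfl | ⟨m, rfl⟩
    · simp
    · simp
  · simp only [hi, if_false]
    simp

end H459R3.NS
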