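import Pool.Agent.H3NY.E.Four

namespace Pool.Agent.H356R3.NS
end Pool.Agent.H356R3.NS
namespace Pool.Agent.H356R3.NS.H3
end Pool.Agent.H356R3.NS.H3
namespace Pool.Agent.H356R3.NS.X
end Pool.Agent.H356R3.NS.X
namespace Pool.Agent.H3NS
end Pool.Agent.H3NS
namespace H459R3.NS
end H459R3.NS

/-!
Absolutely convergent Fourier series and trilinear forms.
-/

open MeasureTheory Set Filter Topology
open scoped ContDiff

namespace H459R3.NS

/-- The sum of the Fourier series with coefficients `a`. -/
noncomputable def S (a : K3 → ℂ) (x : V) : ℂ := ∑' k, a k * ee k x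

theorem norm_term (a : K3 → ℂ) (k : K3) (x : V) : ‖a k * ee k x‖ = ‖a k‖ := by
  rw [norm_mul, norm_ee, mul_one]

theorem S_continuous {a : K3 → ℂ} (ha : Summable a) : Continuous (S a) := by
  unfold S
  exact continuous_tsum (fun k => continuous_const.mul (ee_continuous k)) ha.norm
    (fun k x => (norm_term a k x).le)

theorem integral_S_mul {a : K3 → ℂ} (ha : Summable a) {g : V → ℂ} (hg : Continuous g) :
    HasSum (fun k => a k * ∫ x in cube, ee k x * g x) (∫ x in cube, S a x * g x) := by
  have hi : ∀ k, Integrable (fun x => a k * (ee k x * g x)) (volume.restrict cube) := fun k =>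
    (integrableOn_cube ((ee_continuous k).mul hg)).const_mul _
  have hs : Summable fun k => ∫ x in cube, ‖a k * (ee k x * g x)‖ := by
    have e : ∀ k, ∫ x in cube, ‖a k * (ee k x * g x)‖ = ‖a k‖ * ∫ x in cube, ‖g x‖ := by
      intro k
      rw [← integral_const_mul]
      congr 1
      funext x
      rw [norm_mul, norm_mul, norm_ee, one_mul]
    simp_rw [e]
    exact ha.norm.mul_right _
  have h := hasSum_integral_of_summable_integral_norm hi hs
  have e1 : ∀ k, ∫ x in cube, a k * (ee k x * g x) = a k * ∫ x in cube, ee k x * g x :=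
    fun k => integral_const_mul _ _
  simp_rw [e1] at h
  have e2 : (∫ x in cube, ∑' k, a k * (ee k x * g x)) = ∫ x in cube, S a x * g x := by
    congr 1
    funext x
    unfold S
    rw [← tsum_mul_right]
    exact tsum_congr fun k => by ring
  rwa [e2] at h

theorem integral_ee_S (k : K3) {c : K3 → ℂ} (hc : Summable c) :
    ∫ x in cube, ee k x * S c x = c (-k) := by
  have h := integral_S_mul hc (ee_continuous k)
  have e : ∀ m, c m * ∫ x in cube, ee m x * ee k x = if m = -k then c (-k) else 0 := by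
    intro m
    simp_rw [← ee_add_left]
    rw [integral_ee]
    by_cases hm : m = -k
    · rw [if_pos hm, if_pos (by rw [hm]; simp), mul_one, hm]
    · rw [if_neg hm, if_neg (fun h => hm (eq_neg_of_add_eq_zero_left h)), mul_zero]
  simp_rw [e] at h
  have h2 := h.unique (hasSum_ite_eq (-k) (c (-k)))
  rw [← h2]
  congr 1
  funext x
  ring

theorem integral_ee_S_S (k : K3) {b c : K3 → ℂ} (hb : Summable b) (hc : Summable c) :
    HasSum (fun l => b l * c (-k - l)) (∫ x in cube, ee k x * (S b x * S c x)) := by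
  have h := integral_S_mul hb (g := fun x => ee k x * S c x)
    ((ee_continuous k).mul (S_continuous hc))
  have e : ∀ l, b l * ∫ x in cube, ee l x * (ee k x * S c x) = b l * c (-k - l) := by
    intro l
    have e1 : (∫ x in cube, ee l x * (ee k x * S c x)) = ∫ x in cube, ee (l + k) x * S c x := by
      congr 1
      funext x
      rw [ee_add_left]; ring
    rw [e1, integral_ee_S (l + k) hc]
    congr 2
    abel
  simp_rw [e] at h
  have e2 : (∫ x in cube, S b x * (ee k x * S c x)) = ∫ x in cube, ee k x * (S b x * S c x) := by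
    congr 1
    funext x
    ring
  rwa [e2] at h

/-- The `ℓ²` norm. -/
noncomputable def n2 (b : K3 → ℂ) : ℝ := Real.sqrt (∑' k, ‖b k‖ ^ 2)

theorem summable_sq {b : K3 → ℂ} (hb : Summable b) : Summable fun k => ‖b k‖ ^ 2 := by
  have hM : ∀ k, ‖b k‖ ≤ ∑' m, ‖b m‖ := fun k => hb.norm.le_tsum k fun _ _ => norm_nonneg _
  refine Summable.of_nonneg_of_le (fun p => by positivity) (fun p => ?_)
    (hb.norm.mul_left (∑' m, ‖b m‖))
  rw [sq]
  exact mul_le_mul_of_nonneg_right (hM p) (norm_nonneg _)

theorem n2_sq (b : K3 → ℂ) : n2 b ^ 2 = ∑' k, ‖b k‖ ^ 2 :=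
  Real.sq_sqrt (tsum_nonneg fun _ => by positivity)

theorem integral_norm_sq {b : K3 → ℂ} (hb : Summable b) :
    ∫ x in cube, ‖S b x‖ ^ 2 = n2 b ^ 2 := by
  set b' : K3 → ℂ := fun k => (starRingEnd ℂ) (b (-k)) with hb'
  have hbs : Summable b' := by
    refine Summable.of_norm ?_
    simp only [hb', RCLike.norm_conj]
    exact ((Equiv.neg K3).summable_iff (f := fun k => ‖b k‖)).2 hb.norm
  have e1 : ∀ x, S b' x = (starRingEnd ℂ) (S b x) := by
    intro x
    unfold S
    rw [Complex.conj_tsum, ← (Equiv.neg K3).tsum_eq]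
    refine tsum_congr fun k => ?_
    simp only [hb', Equiv.neg_apply, map_mul, neg_neg, ee_neg]
  have h := integral_S_mul hb (S_continuous hbs)
  have e2 : ∀ k, b k * ∫ x in cube, ee k x * S b' x = ((‖b k‖ ^ 2 : ℝ) : ℂ) := by
    intro k
    rw [integral_ee_S k hbs]
    simp only [hb', neg_neg]
    rw [Complex.mul_conj, Complex.normSq_eq_norm_sq]
  simp_rw [e2] at h
  have e3 : (∫ x in cube, S b x * S b' x) = ((∫ x in cube, ‖S b x‖ ^ 2 : ℝ) : ℂ) := by
    rw [← integral_complex_ofReal]
    congr 1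
    funext x
    rw [e1, Complex.mul_conj, Complex.normSq_eq_norm_sq]
  rw [e3] at h
  have h2 : HasSum (fun k => ‖b k‖ ^ 2) (∫ x in cube, ‖S b x‖ ^ 2) := by
    exact_mod_cast h
  rw [n2_sq, h2.tsum_eq]

where
  le_of_sq_le_sq {x y : ℝ} (h : x ^ 2 ≤ y ^ 2) (hy : 0 ≤ y) : x ≤ y := by
    by_contra hc
    push Not at hc
    nlinarith

end H459R3.NS
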