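import Pool.Agent.H3NY.E.Thin

namespace Pool.Agent.H356R3.NS
end Pool.Agent.H356R3.NS
namespace Pool.Agent.H356R3.NS.H3
end Pool.Agent.H356R3.NS.H3
namespace Pool.Agent.H356R3.NS.X
end Pool.Agent.H356R3.NS.X
namespace Pool.Agent.H3NS
end Pool.Agent.H3NS
namespace H459R3.NS
end H459R3.NS

/-!
The trilinear form `∫ ∂ₘuᵢ ∂ᵢuⱼ ∂ₘuⱼ` in terms of Fourier coefficients.
-/

open MeasureTheory Set Filter Topology
open scoped ENNReal

namespace H459R3.NS

/-- multiplication by `2 π i kₘ` -/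
noncomputable def D (m : Fin 3) (a : K3 → ℂ) (k : K3) : ℂ :=
  (2 * Real.pi * Complex.I * (k m : ℂ)) * a k

/-- rapidly decreasing sequences -/
def Rap (a : K3 → ℂ) : Prop := ∀ n : ℕ, Summable fun k => (N k : ℝ) ^ n * ‖a k‖

theorem Rap.summable {a : K3 → ℂ} (h : Rap a) : Summable a := by
  refine Summable.of_norm ?_
  simpa using h 0

theorem abs_le_N (k : K3) (m : Fin 3) : ‖(k m : ℂ)‖ ≤ N k := by
  have h := (N_le_iff k (N k)).1 le_rfl m
  rw [Complex.norm_intCast]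
  exact_mod_cast h

theorem norm_D_le (m : Fin 3) (a : K3 → ℂ) (k : K3) : ‖D m a k‖ ≤ 2 * Real.pi * (N k * ‖a k‖) := by
  have hp := Real.pi_pos
  rw [D, norm_mul, norm_mul, norm_mul, norm_mul, Complex.norm_I, mul_one, Complex.norm_real,
    Real.norm_eq_abs, abs_of_pos hp, Complex.norm_ofNat]
  have := abs_le_N k m
  calc 2 * Real.pi * ‖(k m : ℂ)‖ * ‖a k‖ ≤ 2 * Real.pi * N k * ‖a k‖ := by gcongr
    _ = _ := by ring

theorem Rap.D {a : K3 → ℂ} (h : Rap a) (m : Fin 3) : Rap (D m a) := by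
  intro n
  refine Summable.of_nonneg_of_le (fun k => by positivity) (fun k => ?_)
    ((h (n + 1)).mul_left (2 * Real.pi))
  calc (N k : ℝ) ^ n * ‖NS.D m a k‖ ≤ (N k : ℝ) ^ n * (2 * Real.pi * (N k * ‖a k‖)) := by
        gcongr
        exact norm_D_le m a k
    _ = 2 * Real.pi * ((N k : ℝ) ^ (n + 1) * ‖a k‖) := by ring

end H459R3.NS
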