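import Pool.Agent.H459R3.NS.Defs

namespace Pool.Agent.H356R3.NS
end Pool.Agent.H356R3.NS
namespace Pool.Agent.H356R3.NS.H3
end Pool.Agent.H356R3.NS.H3
namespace Pool.Agent.H356R3.NS.X
end Pool.Agent.H356R3.NS.X
namespace Pool.Agent.H3NS
end Pool.Agent.H3NS
namespace H459R3.NS
end H459R3.NS

/-!
Two-dimensional sets of frequencies.
-/

open MeasureTheory Set Filter Topology
open scoped ENNReal

namespace H459R3.NS

/-- The sup norm. -/
def N (k : K3) : ℕ := Finset.univ.sup fun j => (k j).natAbs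

theorem N_le_iff (k : K3) (r : ℕ) : N k ≤ r ↔ ∀ j, |k j| ≤ r := by
  unfold N
  rw [Finset.sup_le_iff]
  refine ⟨fun h j => ?_, fun h j _ => ?_⟩
  · have := h j (Finset.mem_univ j)
    rw [← Int.natCast_natAbs]; exact_mod_cast this
  · have := h j
    rw [← Int.natCast_natAbs] at this; exact_mod_cast this

end H459R3.NS
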